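import Pool.Agent.U602.BE.Fam
import Pool.Agent.U602.AB.FamLin

set_option autoImplicit false

/-! # Digits of Beatty sequences inside record prime gaps

Let `α₁, …, α_d > 0` be real numbers such that `|h₁ α₁ + ⋯ + h_d α_d - m| ≥ c₁ H ^ (-τ₁)` for all
integers `m` and all integers `h_j`, not all zero, with `|h_j| ≤ H`, and `β₁, …, β_d` real. Consider
the digits of the integers `m_i(n) = ⌊α_i n + β_i⌋`, `i ≤ d`, each in one or more bases: for
`a = 1, …, s` let `b_a ≥ 2` be a base, `φ(a) ≤ d`, and let `S_a : ℕ → G_a` be strongly `b_a`-additive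
with values in a finite abelian group, `S_a (b_a n + t) = S_a n + S_a t` for `t < b_a`, and such that no
nontrivial character of `S_a n` depends only on `n mod (b_a - 1)`. The bases used for the same `m_i`
are pairwise coprime; the bases used for different `m_i` are arbitrary. Let `γ₁, …, γ_r > 0` be real
numbers with the same Diophantine property (for example `γ = α`), `δ₁, …, δ_r` real, and `ε > 0`.

Then there is `κ > 0` such that for all large `X` and all `g_a ∈ G_a` there is an integer `n` in the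
interval `(X, X + X ^ ε]` with `S_a (m_{φ(a)}(n)) = g_a` for all `a`, such that no prime lies within
`κ log X (log₂ X)² log₄ X / (log₃ X)²` of any of the numbers `n, γ₁ n + δ₁, …, γ_r n + δ_r`.

Example: the sums of the digits of `⌊α_i n + β_i⌋` in the base `b_i` modulo `k_i`, `k_i` prime to
`b_i - 1`, take all prescribed values at the same time, at integers `n` such that all the numbers
`n, α₁ n + β₁, …, α_d n + β_d` are deep inside gaps between primes of the record size.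

Proof. Van der Corput's inequality with shifts `l ≤ K`. Apart from few `n` with a carry the value
`S_a (m_i(n + l)) - S_a (m_i(n))` is determined by the residue of `m_i(n)` modulo a power `B_a` of `b_a`
and by the fractional part of `α_i n + β_i` up to an error `1 / R`, that is by the class of
`⌊R (α_i n + β_i)⌋` modulo `R ∏ B_a`. These classes are jointly equidistributed (discrepancy), so the
correlations factor, and they are small on average over the integer parts `⌊α_i l⌋` by the fourth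
moment bound for strongly additive functions (Gelfond). The resulting power saving, uniform in the
frequency, is fed into the covering criterion of the starting library. -/

namespace Pool.Agent.Results.MP_45ff98_nt.DigitsOfBeattySequences

open Filter

theorem result (d : ℕ) (hd : 1 ≤ d) (α β : Fin d → ℝ) (hα : ∀ i, 0 < α i)
    (c₁ τ₁ : ℝ) (hc₁ : 0 < c₁) (hτ₁ : 0 ≤ τ₁)
    (hdio₁ : ∀ (H : ℕ) (h : Fin d → ℤ), h ≠ 0 → (∀ j, |h j| ≤ H) → ∀ m : ℤ,
      c₁ * (H : ℝ) ^ (-τ₁) ≤ |∑ j, (h j : ℝ) * α j - m|)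
    (s : ℕ) (hs : 1 ≤ s) (φ : Fin s → Fin d) (b : Fin s → ℕ) (hb : ∀ a, 2 ≤ b a)
    (hcop : ∀ a a', a ≠ a' → φ a = φ a' → (b a).Coprime (b a'))
    (G : Fin s → Type) [∀ a, AddCommGroup (G a)] [∀ a, Finite (G a)] (S : ∀ a, ℕ → G a)
    (hS : ∀ (a : Fin s) (n t : ℕ), t < b a → S a (b a * n + t) = S a n + S a t)
    (hN : ∀ (a : Fin s) (χ : AddChar (G a) ℂ), χ (S a 1) ^ (b a - 1) = 1 →
      (∀ t < b a, χ (S a t) = χ (S a 1) ^ t) → ∀ g : G a, χ g = 1)
    (r : ℕ) (hr : 1 ≤ r) (γ δ : Fin r → ℝ) (hγ : ∀ j, 0 < γ j)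
    (c₂ τ₂ : ℝ) (hc₂ : 0 < c₂) (hτ₂ : 0 ≤ τ₂)
    (hdio₂ : ∀ (H : ℕ) (h : Fin r → ℤ), h ≠ 0 → (∀ j, |h j| ≤ H) → ∀ m : ℤ,
      c₂ * (H : ℝ) ^ (-τ₂) ≤ |∑ j, (h j : ℝ) * γ j - m|)
    (ε : ℝ) (hε : 0 < ε) :
    ∃ κ : ℝ, 0 < κ ∧ ∃ X₀ : ℝ, ∀ X : ℝ, X₀ ≤ X → ∀ g : ∀ a, G a,
      ∃ n : ℕ, X < n ∧ (n : ℝ) ≤ X + X ^ ε ∧ (∀ a, S a ⌊α (φ a) * n + β (φ a)⌋₊ = g a) ∧
        ∀ q : ℕ, q.Prime →
        κ * (Real.log X * (Real.log (Real.log X)) ^ 2 *
          Real.log (Real.log (Real.log (Real.log X))) / (Real.log (Real.log (Real.log X))) ^ 2) <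
            |(q : ℝ) - n| ∧
        ∀ j, κ * (Real.log X * (Real.log (Real.log X)) ^ 2 *
          Real.log (Real.log (Real.log (Real.log X))) / (Real.log (Real.log (Real.log X))) ^ 2) <
            |(q : ℝ) - (γ j * n + δ j)| := by
  classical
  have : ∀ a, Fintype (G a) := fun a => Fintype.ofFinite (G a)
  have : Nonempty (Fin s) := ⟨⟨0, hs⟩⟩
  have hbl := Pool.Agent.U602.BE.blocks_be hd φ b hb hcop S hS (by
    rintro a χ hχ ⟨h1, h2⟩
    apply hχ
    ext g
    simpa using hN a χ h1 h2 g) α β hα c₁ τ₁ hc₁ hτ₁ hdio₁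
  obtain ⟨κ, hκ, h⟩ := Pool.Agent.U602.AB.family_lin _ hbl r hr γ δ hγ c₂ τ₂ hc₂ hτ₂ hdio₂ ε hε
  obtain ⟨X₀, hX₀⟩ := eventually_atTop.1 h
  refine ⟨κ, hκ, X₀, fun X hX g => ?_⟩
  obtain ⟨n, h1, h2, h3, h4, h5⟩ := hX₀ X hX g
  exact ⟨n, h1, h2, fun a => congrFun h3 a, fun q hq => ⟨h4 q hq, fun j => h5 j q hq⟩⟩

end Pool.Agent.Results.MP_45ff98_nt.DigitsOfBeattySequences
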