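import Mathlib
import Pool.Agent.U839.Sv.Crit3

set_option autoImplicit false

/-!
# Schinzel's question in random models of the primes: the exact integral test for large gaps

Schinzel asks whether the interval `(x, x + (log x)²)` contains a prime for all `x > 8`. Cramér's conjecture
`limsup (p_{k+1} - p_k) / (log p_k)² = 1` does not answer this: the second order matters. Here we determine the second
order completely in Cramér's random model (every `n` is chosen independently with probability `1 / log n`) and in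
all independent models in which `n` is chosen with probability `g n / log n`, where `g ≥ 0` is bounded and the sum of `g` over every
interval of `w` consecutive integers is `w + O(1)`. An example are the models sieved by a finite set `S` of primes, in
which `g n = ∏_{p ∈ S} (1 - 1/p)⁻¹` if no `p ∈ S` divides `n`, and `g n = 0` otherwise.

For a nondecreasing `φ` and the chosen numbers `q_0 < q_1 < …` of such a model we show:

* if `∑ exp (-φ n) / (n log n)` converges, then almost surely `q_{k+1} - q_k ≤ (log q_k)² + φ(q_k) log q_k` for all large `k`;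
* if it diverges, then almost surely `q_{k+1} - q_k > (log q_k)² + φ(q_k) log q_k` for infinitely many `k`.

Hence almost surely `limsup (q_{k+1} - q_k - (log q_k)²) / (log q_k · log log log q_k) = 1`; in particular Schinzel's
statement fails almost surely for arbitrarily large `x` in all these models, even for the longer intervals of length
`(log x)² + log x · log log log x`, while it becomes true for large `x` if the length is
`(log x)² + (1 + ε) log x · log log log x`.

Proof. The probability that `n` is chosen and the next `(log n)² + φ(n) log n` integers are not is within constant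
factors of `g n exp (-φ n) / (n log n)`. Two such events are disjoint or independent, so the second moment method
gives the Borel-Cantelli lemma in both directions; a decomposition into dyadic blocks removes `g`.
-/

open MeasureTheory ProbabilityTheory Filter Topology

namespace Pool.Agent.Results.MP_45ff98_nt.IntegralTestRandomModels

/-- `g` is bounded and nonnegative and the sum of `g` over each interval of `w` consecutive
integers is `w + O(1)`. -/
def Regular (g : ℕ → ℝ) : Prop :=
  ∃ D : ℝ, (∀ n, 0 ≤ g n ∧ g n ≤ D) ∧ ∀ n w : ℕ, |∑ m ∈ Finset.Ioc n (n + w), g m - w| ≤ D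

/-- The random model: `E n` is the event that `n` is chosen; these events are independent and have
probability `g n / log n` for all large `n`. -/
structure Model {Ω : Type*} [MeasurableSpace Ω] (μ : Measure Ω) (g : ℕ → ℝ) (E : ℕ → Set Ω) : Prop where
  meas : ∀ n, MeasurableSet (E n)
  indep : iIndepSet E μ
  law : ∀ᶠ n : ℕ in atTop, μ.real (E n) = g n / Real.log n

/-- `q Q k` is the `k`-th element (`k = 0, 1, …`) of the infinite set `Q`. -/
noncomputable def q (Q : Set ℕ) (k : ℕ) : ℕ := Nat.nth (· ∈ Q) k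

/-- The gap after `q Q k` exceeds `(log x)² + φ(x) log x` for `x = q Q k`. -/
def Exceeds (Q : Set ℕ) (φ : ℕ → ℝ) (k : ℕ) : Prop :=
  (Real.log (q Q k)) ^ 2 + φ (q Q k) * Real.log (q Q k) < (q Q (k + 1) : ℝ) - q Q k

open Classical in
/-- The weights of the sieve by a finite set `S` of primes. -/
noncomputable def sieveWeight (S : Finset ℕ) (n : ℕ) : ℝ :=
  if ∀ p ∈ S, ¬ p ∣ n then ∏ p ∈ S, (1 - 1 / (p : ℝ))⁻¹ else 0

/-- The interval `(x, x + (log x)²)` contains no element of `Q`. -/
def SchinzelFails (Q : Set ℕ) (x : ℝ) : Prop :=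
  ∀ m ∈ Q, ¬ (x < m ∧ (m : ℝ) < x + (Real.log x) ^ 2)

theorem core {g : ℕ → ℝ} (hg : Regular g) {Ω : Type*} [MeasurableSpace Ω] {μ : Measure Ω} [IsProbabilityMeasure μ]
    {E : ℕ → Set Ω} (hE : Model μ g E) :
    ∃ C : ℝ, 1 ≤ C ∧ Pool.Agent.U839.Sv.Reg (fun n => μ.real (E n)) C := by
  obtain ⟨D, hD⟩ := hg
  exact Pool.Agent.U839.Sv.reg_of_disc g (fun n => μ.real (E n)) D hD (fun n => measureReal_nonneg) hE.law

theorem infinite {g : ℕ → ℝ} (hg : Regular g) {Ω : Type*} [MeasurableSpace Ω] {μ : Measure Ω} [IsProbabilityMeasure μ]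
    {E : ℕ → Set Ω} (hE : Model μ g E) : ∀ᵐ ω ∂μ, {n | ω ∈ E n}.Infinite := by
  obtain ⟨C, hC, hR⟩ := core hg hE
  exact Pool.Agent.U839.Sv.inf_el hE.meas hE.indep C hC hR

theorem conv {g : ℕ → ℝ} (hg : Regular g) {Ω : Type*} [MeasurableSpace Ω] {μ : Measure Ω} [IsProbabilityMeasure μ]
    {E : ℕ → Set Ω} (hE : Model μ g E) (φ : ℕ → ℝ) (hφ : Monotone φ)
    (h : Summable fun n : ℕ => Real.exp (-φ n) / (n * Real.log n)) :
    ∀ᵐ ω ∂μ, ∀ᶠ k in atTop, ¬ Exceeds {n | ω ∈ E n} φ k := by
  obtain ⟨C, hC, hR⟩ := core hg hE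
  filter_upwards [Pool.Agent.U839.Sv.gap_conv hE.meas hE.indep C hC hR φ hφ h] with ω hω
  filter_upwards [hω] with k hk
  exact not_lt.2 hk

theorem div {g : ℕ → ℝ} (hg : Regular g) {Ω : Type*} [MeasurableSpace Ω] {μ : Measure Ω} [IsProbabilityMeasure μ]
    {E : ℕ → Set Ω} (hE : Model μ g E) (φ : ℕ → ℝ) (hφ : Monotone φ)
    (h : ¬ Summable fun n : ℕ => Real.exp (-φ n) / (n * Real.log n)) :
    ∀ᵐ ω ∂μ, ∃ᶠ k in atTop, Exceeds {n | ω ∈ E n} φ k := by
  obtain ⟨C, hC, hR⟩ := core hg hE
  exact Pool.Agent.U839.Sv.gap_div hE.meas hE.indep C hC hR φ hφ h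

theorem l3_eq (c : ℝ) : ∀ᶠ n : ℕ in atTop,
    Pool.Agent.U839.Sv.l3 c n = c * Real.log (Real.log (Real.log n)) := by
  filter_upwards [eventually_ge_atTop 16] with n hn
  unfold Pool.Agent.U839.Sv.l3
  rw [max_eq_left hn]

theorem qtends {Q : Set ℕ} (hQ : Q.Infinite) : Tendsto (q Q) atTop atTop := by
  have h2' : (Set.ofPred (· ∈ Q)).Infinite := hQ
  exact (Nat.nth_strictMono h2').tendsto_atTop

/-- The integral test; the law of the triple logarithm; the failure of Schinzel's statement; the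
examples. -/
theorem result.{u} :
    (∀ g : ℕ → ℝ, Regular g → ∀ (Ω : Type u) [MeasurableSpace Ω] (μ : Measure Ω)
      [IsProbabilityMeasure μ] (E : ℕ → Set Ω), Model μ g E →
      (∀ᵐ ω ∂μ, {n | ω ∈ E n}.Infinite) ∧
      (∀ φ : ℕ → ℝ, Monotone φ →
        ((∀ᵐ ω ∂μ, ∃ᶠ k in atTop, Exceeds {n | ω ∈ E n} φ k) ↔
          ¬ Summable fun n : ℕ => Real.exp (-φ n) / (n * Real.log n)) ∧
        ((∀ᵐ ω ∂μ, ∀ᶠ k in atTop, ¬ Exceeds {n | ω ∈ E n} φ k) ↔
          Summable fun n : ℕ => Real.exp (-φ n) / (n * Real.log n))) ∧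
      (∀ c : ℝ, c ≤ 1 → ∀ᵐ ω ∂μ, ∃ᶠ k in atTop,
        Exceeds {n | ω ∈ E n} (fun n => c * Real.log (Real.log (Real.log n))) k) ∧
      (∀ c : ℝ, 1 < c → ∀ᵐ ω ∂μ, ∀ᶠ k in atTop,
        ¬ Exceeds {n | ω ∈ E n} (fun n => c * Real.log (Real.log (Real.log n))) k) ∧
      (∀ᵐ ω ∂μ, ∀ x₀ : ℝ, ∃ x : ℝ, x₀ < x ∧ SchinzelFails {n | ω ∈ E n} x)) ∧
    Regular (fun _ => 1) ∧
    ∀ S : Finset ℕ, (∀ p ∈ S, p.Prime) → Regular (sieveWeight S) := by
  refine ⟨?_, ⟨1, Pool.Agent.U839.Sv.disc_one⟩, fun S hS => Pool.Agent.U839.Sv.disc_sieve S hS⟩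
  intro g hg Ω _ μ _ E hE
  have hdiv1 : ∀ c : ℝ, c ≤ 1 → ∀ᵐ ω ∂μ, ∃ᶠ k in atTop,
        Exceeds {n | ω ∈ E n} (fun n => c * Real.log (Real.log (Real.log n))) k := by
    intro c hc
    filter_upwards [div hg hE _ (Pool.Agent.U839.Sv.l3_mono 1 zero_le_one) Pool.Agent.U839.Sv.l3_diverges,
      infinite hg hE] with ω h1 h2
    have h3 := qtends h2
    have h4 := h3.eventually (l3_eq 1)
    have h5 : Tendsto (fun n : ℕ => Real.log (Real.log (Real.log n))) atTop atTop :=
      Real.tendsto_log_atTop.comp (Real.tendsto_log_atTop.comp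
        (Real.tendsto_log_atTop.comp tendsto_natCast_atTop_atTop))
    have h6 := h3.eventually (h5.eventually_ge_atTop 0)
    refine (h1.and_eventually (h4.and h6)).mono ?_
    rintro k ⟨g1, g2, g3⟩
    unfold Exceeds at g1 ⊢
    rw [g2] at g1
    have g4 := Real.log_natCast_nonneg (q {n | ω ∈ E n} k)
    have g5 : c * Real.log (Real.log (Real.log (q {n | ω ∈ E n} k))) ≤
        1 * Real.log (Real.log (Real.log (q {n | ω ∈ E n} k))) :=
      mul_le_mul_of_nonneg_right hc g3
    have g6 := mul_le_mul_of_nonneg_right g5 g4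
    linarith
  refine ⟨infinite hg hE, ?_, hdiv1, ?_, ?_⟩
  · intro φ hφ
    refine ⟨⟨fun h1 h2 => ?_, div hg hE φ hφ⟩, ⟨fun h1 => ?_, conv hg hE φ hφ⟩⟩
    · obtain ⟨ω, h3, h4⟩ := (h1.and (conv hg hE φ hφ h2)).exists
      obtain ⟨k, h5, h6⟩ := (h3.and_eventually h4).exists
      exact h6 h5
    · by_contra h2
      obtain ⟨ω, h3, h4⟩ := (h1.and (div hg hE φ hφ h2)).exists
      obtain ⟨k, h5, h6⟩ := (h4.and_eventually h3).exists
      exact h6 h5
  · intro c hc
    filter_upwards [conv hg hE _ (Pool.Agent.U839.Sv.l3_mono c (by linarith)) (Pool.Agent.U839.Sv.l3_converges c hc),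
      infinite hg hE] with ω h1 h2
    filter_upwards [h1, (qtends h2).eventually (l3_eq c)] with k g1 g2
    unfold Exceeds at g1 ⊢
    rw [g2] at g1
    exact g1
  · filter_upwards [hdiv1 0 zero_le_one, infinite hg hE] with ω h1 h2
    intro x₀
    obtain ⟨k, g1, g2⟩ := (h1.and_eventually ((qtends h2).eventually
      (tendsto_natCast_atTop_atTop.eventually_gt_atTop x₀))).exists
    refine ⟨(q {n | ω ∈ E n} k : ℝ), g2, ?_⟩
    intro m hm ⟨h3, h4⟩
    unfold Exceeds at g1
    have h2' : (Set.ofPred (· ∈ {n | ω ∈ E n})).Infinite := h2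
    have hmono : StrictMono (q {n | ω ∈ E n}) := Nat.nth_strictMono h2'
    classical
    obtain ⟨j, hj⟩ : ∃ j, q {n | ω ∈ E n} j = m :=
      ⟨Nat.count (· ∈ {n | ω ∈ E n}) m, Nat.nth_count (p := (· ∈ {n | ω ∈ E n})) hm⟩
    have h5 : q {n | ω ∈ E n} k < q {n | ω ∈ E n} j := by
      rw [hj]
      exact_mod_cast h3
    have h6 : k < j := (hmono.lt_iff_lt).1 h5
    have h7 : q {n | ω ∈ E n} (k + 1) ≤ m := by
      rw [← hj]
      exact hmono.monotone h6
    have h8 : (q {n | ω ∈ E n} (k + 1) : ℝ) ≤ m := by exact_mod_cast h7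
    simp only [zero_mul, add_zero] at g1
    linarith

end Pool.Agent.Results.MP_45ff98_nt.IntegralTestRandomModels
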