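import Mathlib
import Pool.Agent.U158.RW.Det

set_option autoImplicit false

/-!
# The empty intervals `(n, n + c log² n]`, `c < 1`, in every sequential random model of the primes

Schinzel's question is whether all intervals `(x, x + log² x)`, `x > 8`, contain a prime. A random set `S` is built
step by step, with arbitrary dependence; the conditional probability of `n + 1`, given the first `n` steps, is
asymptotic to `∏_{q ≤ T} (1 - 1/q)⁻¹ / log n`, `T = T(n + 1)`, if `n + 1` has no prime factor up to `T(n + 1)`, and it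
is `0` otherwise (Cramér's model: `T = 1`). The nondecreasing function `T` is smaller than every power of `log n`.
With `S` in the place of the primes we find where the exceptions for the intervals `(n, n + c log² n]` lie: for
`c > 1` there are finitely many; for every `0 < c < 1` there are `Y X ^ (-c + o(1))` in each interval `(X, X + Y]`
with `X ^ (c + ε) ≤ Y ≤ X`, and the exponent `c` is the limit here: there are intervals `(X, X + X ^ (c - ε)]` without
exceptions. So each interval `(X, X + Y]` contains, or is followed by, an interval without elements of `S` of length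
`log X (log Y - ε log X)`, and this length is optimal.
-/

open MeasureTheory Filter Topology

namespace Pool.Agent.Results.MP_45ff98_nt.LocalLawOfEmptyIntervals

/-- A sequential model with profile `a`: the set of the `n` with `ω ∈ A n` is adapted to the filtration, and
almost surely the conditional probability of `n + 1`, given the first `n` steps, is asymptotic to
`a (n + 1)` (in particular it is `0` for large `n` if `a (n + 1) = 0`). -/
structure IsModel {Ω : Type} {m0 : MeasurableSpace Ω} (μ : Measure Ω) (ℱ : Filtration ℕ m0)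
    (A : ℕ → Set Ω) (a : ℕ → ℝ) : Prop where
  adapted : ∀ n, MeasurableSet[ℱ n] (A n)
  law : ∀ᵐ ω ∂μ, ∀ ε : ℝ, 0 < ε → ∀ᶠ n : ℕ in atTop,
    |(μ[(A (n + 1)).indicator (fun _ => (1 : ℝ)) | ℱ n]) ω - a (n + 1)| ≤ ε * a (n + 1)

open Classical in
/-- the profile of the model with sieve limit `T`: `∏_{p ≤ T(n)} (1 - 1/p)⁻¹ / log n` if `n` has no prime
factor `p ≤ T(n)`, and `0` otherwise -/
noncomputable def sieveProfile (T : ℕ → ℕ) (n : ℕ) : ℝ :=
  (if ∀ p, p.Prime → p ≤ T n → ¬ p ∣ n then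
    ∏ p ∈ (Finset.Icc 1 (T n)).filter Nat.Prime, (1 - 1 / (p : ℝ))⁻¹ else 0) / Real.log n

/-- `T` is smaller than every power of `log n` -/
def Tiny (T : ℕ → ℕ) : Prop := ∀ κ : ℝ, 0 < κ → ∀ᶠ n : ℕ in atTop, (T n : ℝ) ≤ Real.log n ^ κ

/-- the set `E(c)` of the exceptions: the `n` for which `(n, n + c log² n]` contains no element of `S` -/
def E (S : Set ℕ) (c : ℝ) : Set ℕ :=
  {n | ∀ m : ℕ, n < m → (m : ℝ) ≤ n + c * Real.log n ^ 2 → m ∉ S}

open Classical in
/-- the number of the elements of `E(c)` in `(X, X + Y]` -/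
noncomputable def N (S : Set ℕ) (c : ℝ) (X Y : ℕ) : ℕ :=
  ((Finset.Ioc X (X + Y)).filter fun n => n ∈ E S c).card

theorem toModel {Ω : Type} {m0 : MeasurableSpace Ω} {μ : Measure Ω} {ℱ : Filtration ℕ m0}
    {A : ℕ → Set Ω} {a : ℕ → ℝ} (h : IsModel μ ℱ A a) : Pool.Agent.U462.Gap.Model μ ℱ A a :=
  ⟨h.adapted, h.law⟩

/-- **(1)** Let `T` be nondecreasing and `Tiny`, `S` the set of a model with the profile `sieveProfile T`. Almost
surely, for all real `c` and `ε > 0`: (a) if `0 < c < 1`, for all large `X` every interval `(X, X + Y]` with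
`X ^ (c + ε) ≤ Y ≤ X` has at least `Y X ^ (-(c + ε))` and at most `Y X ^ (-(c - ε))` elements of `E(c)`; (b) if
`0 < c < 1`, for all large `Z` there is `X` in `[Z, 2 Z]` such that `(X, X + X ^ (c - ε)]` has no element of `E(c)`;
(c) if `c > 1`, `E(c)` is finite; (d) for all large `X` and all `Y` with `X ^ ε ≤ Y ≤ X` there is `n` in `(X, X + Y]`
such that `(n, n + log X (log Y - ε log X)]` has no element of `S`.
**(2)** Independent events with probabilities asymptotic to `a n` form a model with the profile `a`. -/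
theorem result :
    (∀ (Ω : Type) (m0 : MeasurableSpace Ω) (μ : Measure Ω) (_ : IsProbabilityMeasure μ)
      (ℱ : Filtration ℕ m0) (A : ℕ → Set Ω) (T : ℕ → ℕ), Monotone T → Tiny T →
      IsModel μ ℱ A (sieveProfile T) → ∀ᵐ ω ∂μ,
        (∀ c ε : ℝ, 0 < c → c < 1 → 0 < ε →
          (∀ᶠ X : ℕ in atTop, ∀ Y : ℕ, (X : ℝ) ^ (c + ε) ≤ Y → Y ≤ X →
            (Y : ℝ) * (X : ℝ) ^ (-(c + ε)) ≤ N {m | ω ∈ A m} c X Y ∧
              (N {m | ω ∈ A m} c X Y : ℝ) ≤ Y * (X : ℝ) ^ (-(c - ε))) ∧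
          (∀ᶠ Z : ℕ in atTop, ∃ X : ℕ, Z ≤ X ∧ X ≤ 2 * Z ∧
            ∀ n ∈ E {m | ω ∈ A m} c, X < n → (X : ℝ) + (X : ℝ) ^ (c - ε) < n)) ∧
        (∀ c : ℝ, 1 < c → (E {m | ω ∈ A m} c).Finite) ∧
        (∀ ε : ℝ, 0 < ε → ∀ᶠ X : ℕ in atTop, ∀ Y : ℕ, (X : ℝ) ^ ε ≤ Y → Y ≤ X →
          ∃ n : ℕ, X < n ∧ n ≤ X + Y ∧ ∀ m : ℕ, n < m →
            (m : ℝ) ≤ n + (Real.log Y - ε * Real.log X) * Real.log X → ω ∉ A m)) ∧
    (∀ (Ω : Type) (m0 : MeasurableSpace Ω) (μ : Measure Ω) (_ : IsProbabilityMeasure μ)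
      (A : ℕ → Set Ω) (hm : ∀ n, MeasurableSet (A n)) (a : ℕ → ℝ), ProbabilityTheory.iIndepSet A μ →
      (∀ ε : ℝ, 0 < ε → ∀ᶠ n : ℕ in atTop, |μ.real (A n) - a n| ≤ ε * a n) →
      IsModel μ (filtrationOfSet hm) A a) := by
  classical
  refine ⟨?_, ?_⟩
  · intro Ω m0 μ iμ ℱ A T hT hTt hA
    have hM : Pool.Agent.U462.Gap.Model μ ℱ A (Pool.Agent.U462.Gap.aT T) := toModel hA
    have ha : ∀ n, 0 ≤ Pool.Agent.U462.Gap.aT T n := Pool.Agent.U462.Gap.aT_nonneg T
    have hTs : Pool.Agent.U462.Gap.Small T := by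
      intro δ hδ
      have h1 := (isLittleO_log_rpow_atTop hδ).def (show (0 : ℝ) < 1 by norm_num)
      filter_upwards [hTt 1 one_pos, tendsto_natCast_atTop_atTop.eventually h1] with n h2 h3
      rw [Real.rpow_one] at h2
      rw [Real.norm_of_nonneg (Real.log_natCast_nonneg n), Real.norm_of_nonneg (by positivity), one_mul] at h3
      exact h2.trans h3
    have ha0 := Pool.Agent.U462.Gap.aT_tendsto T hTs
    have hMs : ∀ c : ℝ, 0 < c → Pool.Agent.U158.RW.HM (Pool.Agent.U462.Gap.aT T) (fun n => n)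
        (Pool.Agent.U462.Gap.wl c) c := fun c hc =>
      Pool.Agent.U158.RW.mass hT hTt (Eventually.of_forall fun n => le_rfl) hc
        (Pool.Agent.U158.RW.HW_wl hc)
    -- the local law for rational exponents
    have hlaw : ∀ᵐ ω ∂μ, ∀ q e : ℚ, 0 < q → q < 1 → 0 < e → ∀ᶠ X : ℕ in atTop, ∀ Y : ℕ,
        (X : ℝ) ^ ((q : ℝ) + e) ≤ Y → Y ≤ X →
          (Y : ℝ) * (X : ℝ) ^ (-((q : ℝ) + e)) ≤ Pool.Agent.U158.RW.Vn {m | ω ∈ A m} q X Y ∧
          (Pool.Agent.U158.RW.Vn {m | ω ∈ A m} q X Y : ℝ) ≤ Y * (X : ℝ) ^ (-((q : ℝ) - e)) := by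
      rw [ae_all_iff]
      intro q
      rw [ae_all_iff]
      intro e
      by_cases hq : 0 < q
      · by_cases he : 0 < e
        · have hq' : (0 : ℝ) < q := by exact_mod_cast hq
          have he' : (0 : ℝ) < e := by exact_mod_cast he
          filter_upwards [Pool.Agent.U158.RW.local_low hM ha ha0 hq' (hMs _ hq') he',
            Pool.Agent.U158.RW.local_up hM ha ha0 hq' (hMs _ hq') he'] with ω h1 h2 _ _ _
          filter_upwards [h1, h2] with X h3 h4 Y hY1 hY2
          rw [Pool.Agent.U158.RW.Vn_eq hq'.le]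
          exact ⟨h3 Y hY1 hY2, h4 Y hY1 hY2⟩
        · exact Eventually.of_forall fun ω _ _ h => absurd h he
      · exact Eventually.of_forall fun ω h => absurd h hq
    have hfin : ∀ᵐ ω ∂μ, ∀ q : ℚ, 1 < q → (E {m | ω ∈ A m} q).Finite := by
      rw [ae_all_iff]
      intro q
      by_cases hq : 1 < q
      · have hq' : (1 : ℝ) < q := by exact_mod_cast hq
        have hq0 : (0 : ℝ) < q := by linarith
        filter_upwards [Pool.Agent.U158.RW.hits (x := fun n => n) hM ha ha0 tendsto_id hq' (hMs _ hq0)]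
          with ω h1 _
        obtain ⟨n₀, hn₀⟩ := eventually_atTop.1 h1
        refine (Set.finite_lt_nat n₀).subset ?_
        intro n hn
        by_contra hcon
        exact hn₀ n (not_lt.1 hcon) ((Pool.Agent.U158.RW.Vd_iff hq0.le n).1 hn)
      · exact Eventually.of_forall fun ω h => absurd h hq
    filter_upwards [hlaw, hfin] with ω h1 h2
    have h3 : ∀ c ε : ℝ, 0 < c → c < 1 → 0 < ε → ∀ᶠ X : ℕ in atTop, ∀ Y : ℕ, (X : ℝ) ^ (c + ε) ≤ Y → Y ≤ X →
        (Y : ℝ) * (X : ℝ) ^ (-(c + ε)) ≤ N {m | ω ∈ A m} c X Y ∧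
          (N {m | ω ∈ A m} c X Y : ℝ) ≤ Y * (X : ℝ) ^ (-(c - ε)) :=
      fun c ε hc hc1 hε => Pool.Agent.U158.RW.law_real h1 hc hc1 hε
    refine ⟨fun c ε hc hc1 hε => ⟨h3 c ε hc hc1 hε, ?_⟩, ?_, ?_⟩
    · refine Pool.Agent.U158.RW.gaps_exist hc hc1 hε ?_
      obtain ⟨η, hη, hη1, hη2⟩ : ∃ η : ℝ, 0 < η ∧ η ≤ ε / 2 ∧ c + η ≤ 1 :=
        ⟨min (ε / 2) (1 - c), lt_min (by linarith) (by linarith), min_le_left _ _, by
          linarith [min_le_right (ε / 2) (1 - c)]⟩
      filter_upwards [h3 c η hc hc1 hη, eventually_ge_atTop 1] with X hX hX1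
      have hXr : (1 : ℝ) ≤ X := by exact_mod_cast hX1
      have h4 := (hX X (by
        calc (X : ℝ) ^ (c + η) ≤ (X : ℝ) ^ (1 : ℝ) := Real.rpow_le_rpow_of_exponent_le hXr hη2
          _ = X := Real.rpow_one _) le_rfl).2
      refine h4.trans (mul_le_mul_of_nonneg_left ?_ (by linarith))
      exact Real.rpow_le_rpow_of_exponent_le hXr (by linarith)
    · intro c hc
      obtain ⟨q, hq1, hq2⟩ := exists_rat_btwn hc
      exact (h2 q (by exact_mod_cast hq1)).subset (Pool.Agent.U158.RW.Vd_anti hq2.le)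
    · intro ε hε
      refine Pool.Agent.U158.RW.longest_low (fun c ε' hc hc1 hε' => ?_) hε
      filter_upwards [h3 c ε' hc hc1 hε'] with X hX Y hY1 hY2
      exact (hX Y hY1 hY2).1
  · intro Ω m0 μ iμ A hm a hi hp
    have h1 := Pool.Agent.U462.Gap.indep_model hm hi hp
    exact ⟨h1.adapted, h1.law⟩

end Pool.Agent.Results.MP_45ff98_nt.LocalLawOfEmptyIntervals
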