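import Pool.Agent.U642.BG.Gaps

set_option autoImplicit false

/-!
# Record prime gaps at long products of elements of tiny sets modulo primes

Let `A_1, …, A_n` be ARBITRARY sets of residues modulo the prime `p`, each with at least `p ^ ε`
elements, and let `x_S ≠ 0` be residues.  There is a `k` depending on `ε` only such that for at least
`p ^ (-ε) |A_1| ⋯ |A_n|` of the tuples `a` all the numbers

  `x_S ∏_{i ∈ S} a_i + ∑_{i ∈ S} G_{S,i}(a)`,  `S ⊆ {1, …, n}`, `|S| ≥ k`,

where `G_{S,i}` is an arbitrary function of the `a_j`, `j ∈ S`, `j ≠ i`, have a representative in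
prescribed intervals of length `p ^ (1 - δ)` which is the centre of a record prime gap.

The library has this for the products of two sets with `|A| |B| ≥ p ^ (1 + ε)` and for subgroups of
order at least `p ^ (3/8 + ε)` (`MP_69be96_nt.ProductsAndPowersModP`).  Here the sets are as small as
`p ^ ε`, for every `ε > 0`.

Proof.  The inequality of Cauchy and Schwarz, applied to all the variables in a maximal set `S` of a
frequency, removes the lower order functions and leaves a sum over products of differences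
(`U642.BG.box`).  The law of `a b + a' b'` (`a, a'` in a tiny set, `b, b'` with the previous law) has a
smaller collision probability than the previous law by the flattening theorem of the starting library
(`Y881.SP.flat`, from the theorem of Bourgain, Katz and Tao), and a bounded number of steps gives the
theorem of Bourgain, Glibichuk and Konyagin on multilinear exponential sums (`U642.BG.multi`).  The
criterion `N825.FC.crit` of the starting library (covering sieve) does the rest.
-/

namespace Pool.Agent.Results.MP_45ff98_nt.ProductsOfTinySets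

open Finset

/-- The record scale `f(x) = log x (log₂ x)² log₄ x / (log₃ x)²` (iterated natural logarithms). -/
noncomputable def f (x : ℝ) : ℝ :=
  Real.log x * (Real.log (Real.log x)) ^ 2 * Real.log (Real.log (Real.log (Real.log x))) /
    (Real.log (Real.log (Real.log x))) ^ 2

/-- Every integer within `κ f(p)` of `v` has a prime factor at most `p ^ ε`. -/
def Centre (κ ε : ℝ) (p : ℕ) (v : ℤ) : Prop :=
  ∀ t : ℤ, |(t : ℝ) - v| ≤ κ * f p → ∃ l : ℕ, l.Prime ∧ (l : ℝ) ≤ (p : ℝ) ^ ε ∧ (l : ℤ) ∣ t

/-- **Record prime gaps at long products of elements of tiny sets.** -/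
theorem result (ε : ℝ) (hε : 0 < ε) (hε1 : ε ≤ 1) : ∃ k : ℕ, ∀ n : ℕ, k ≤ n → ∃ κ : ℝ, 0 < κ ∧
    ∃ δ : ℝ, 0 < δ ∧ ∃ p₀ : ℝ, ∀ (p : ℕ) [Fact p.Prime], p₀ ≤ p →
    ∀ A : Fin n → Finset (ZMod p), (∀ i, (p : ℝ) ^ ε ≤ (A i).card) →
    ∀ (x : Finset (Fin n) → ZMod p) (G : Finset (Fin n) → Fin n → (Fin n → ZMod p) → ZMod p),
    (∀ S, x S ≠ 0) →
    (∀ S, ∀ i ∈ S, ∀ a b, (∀ j ∈ S, j ≠ i → a j = b j) → G S i a = G S i b) →
    ∀ (M : Finset (Fin n) → ℤ) (L : ℕ), (p : ℝ) ^ (1 - δ) ≤ L → L ≤ p →
    ∃ B ⊆ Fintype.piFinset A, (p : ℝ) ^ (-ε) * ∏ i, ((A i).card : ℝ) ≤ B.card ∧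
      ∀ a ∈ B, ∀ S : Finset (Fin n), k ≤ S.card → ∃ v : ℤ, M S < v ∧ v ≤ M S + L ∧
        (v : ZMod p) = x S * ∏ i ∈ S, a i + ∑ i ∈ S, G S i a ∧ Centre κ ε p v :=
  Pool.Agent.U642.BG.gaps ε hε hε1

end Pool.Agent.Results.MP_45ff98_nt.ProductsOfTinySets
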